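import Pool.Agent.H180.RS.Stmts2
import Pool.Agent.H180.RS.Gs

/-!
# The value of the exotic class is a sign, and symmetric
-/

set_option autoImplicit false

namespace Pool.Agent.Q213.RS

open Finset Pool.Agent.H180.RS Pool.Agent.H916R2 Pool.Agent.Q59.FS Pool.Agent.Q59.RL

section Nz

variable {ℓ : ℕ} [hℓ : Fact ℓ.Prime] {ψ : AddChar (ZMod ℓ) ℂ}

lemma nz_mul_inv (hψ : ψ ≠ 1) {χ : MulChar (ZMod ℓ) ℂ} (h1 : χ ≠ 1) (h2 : χ (-1) = 1) :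
    nz ψ χ * nz ψ χ⁻¹ = 1 := by
  have h3 : ψ.IsPrimitive := AddChar.IsPrimitive.of_ne_one hψ
  have h4 := gauss_mul_inv h1 h2 h3
  have hs : ((Real.sqrt ℓ : ℝ) : ℂ) * ((Real.sqrt ℓ : ℝ) : ℂ) = ℓ := by
    rw [← Complex.ofReal_mul, Real.mul_self_sqrt (by positivity)]
    norm_cast
  have hl : (ℓ : ℂ) ≠ 0 := by exact_mod_cast hℓ.out.ne_zero
  unfold nz
  rw [div_mul_div_comm, h4, ZMod.card, hs, div_self hl]

lemma nz_ne (hψ : ψ ≠ 1) {χ : MulChar (ZMod ℓ) ℂ} (h1 : χ ≠ 1) (h2 : χ (-1) = 1) :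
    nz ψ χ ≠ 0 := left_ne_zero_of_mul (by rw [nz_mul_inv hψ h1 h2]; exact one_ne_zero)

lemma nz_inv (hψ : ψ ≠ 1) {χ : MulChar (ZMod ℓ) ℂ} (h1 : χ ≠ 1) (h2 : χ (-1) = 1) :
    nz ψ χ⁻¹ = (nz ψ χ)⁻¹ := (inv_eq_of_mul_eq_one_right (nz_mul_inv hψ h1 h2)).symm

end Nz

section Ev

variable {ℓ p q : ℕ} [hℓ : Fact ℓ.Prime] [hp : Fact p.Prime] [hq : Fact q.Prime]
  {ψ : AddChar (ZMod ℓ) ℂ} {α β : MulChar (ZMod ℓ) ℂ}

lemma gen_ok (hp2 : p ≠ 2) (hα : orderOf α = p) (i : ℕ) :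
    α ^ gn p ^ i ≠ 1 ∧ (α ^ gn p ^ i) (-1) = 1 := by
  have h1 := orderOf_pow_gen hα (gn_spec p) i
  refine ⟨?_, neg_one_eq_one (by rw [h1]; exact hp.out.odd_of_ne_two hp2)⟩
  intro h
  rw [h, orderOf_one] at h1
  exact hp.out.one_lt.ne h1

lemma mix_ok (hp2 : p ≠ 2) (hq2 : q ≠ 2) (hpq : p ≠ q) (hα : orderOf α = p) (hβ : orderOf β = q)
    (a b : ℕ) : β ^ gn q ^ a * (α ^ gn p ^ b)⁻¹ ≠ 1 ∧
      (β ^ gn q ^ a * (α ^ gn p ^ b)⁻¹) (-1) = 1 := by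
  constructor
  · intro h
    rw [mul_inv_eq_one] at h
    have h1 := orderOf_pow_gen hα (gn_spec p) b
    have h2 := orderOf_pow_gen hβ (gn_spec q) a
    rw [h, h1] at h2
    exact hpq h2
  · rw [MulChar.mul_apply, (gen_ok hq2 hβ a).2, MulChar.inv_apply', inv_neg_one,
      (gen_ok hp2 hα b).2, one_mul]

lemma ev_ne (hψ : ψ ≠ 1) (hp2 : p ≠ 2) (hq2 : q ≠ 2) (hpq : p ≠ q) (hα : orderOf α = p)
    (hβ : orderOf β = q) : ev p q ψ α β ≠ 0 := by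
  unfold ev
  refine div_ne_zero (mul_ne_zero ?_ ?_) ?_
  · refine prod_ne_zero_iff.mpr fun a _ => prod_ne_zero_iff.mpr fun b _ => ?_
    exact nz_ne hψ (mix_ok hp2 hq2 hpq hα hβ a b).1 (mix_ok hp2 hq2 hpq hα hβ a b).2
  · exact prod_ne_zero_iff.mpr fun i _ => nz_ne hψ (gen_ok hq2 hβ i).1 (gen_ok hq2 hβ i).2
  · exact prod_ne_zero_iff.mpr fun i _ => nz_ne hψ (gen_ok hp2 hα i).1 (gen_ok hp2 hα i).2

lemma ev_swap (hψ : ψ ≠ 1) (hp2 : p ≠ 2) (hq2 : q ≠ 2) (hpq : p ≠ q) (hα : orderOf α = p)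
    (hβ : orderOf β = q) : ev q p ψ β α = (ev p q ψ α β)⁻¹ := by
  have h1 : ∏ a ∈ range ((p - 1) / 2), ∏ b ∈ range ((q - 1) / 2),
        nz ψ (α ^ gn p ^ a * (β ^ gn q ^ b)⁻¹) =
      (∏ a ∈ range ((q - 1) / 2), ∏ b ∈ range ((p - 1) / 2),
        nz ψ (β ^ gn q ^ a * (α ^ gn p ^ b)⁻¹))⁻¹ := by
    rw [prod_comm, ← prod_inv_distrib]
    refine prod_congr rfl fun a _ => ?_
    rw [← prod_inv_distrib]
    refine prod_congr rfl fun b _ => ?_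
    rw [← nz_inv hψ (mix_ok hp2 hq2 hpq hα hβ a b).1 (mix_ok hp2 hq2 hpq hα hβ a b).2,
      mul_inv, inv_inv, mul_comm]
  unfold ev
  rw [h1, inv_div, ← one_div, div_mul_eq_mul_div, one_mul, div_div]

end Ev

/-- **SQ.** -/
theorem sq (h1 : PropDist) (h2 : PropVal) : PropSq := by
  intro ℓ p q hℓ hp hq hp2 hq2 hpq α β ψ hψ hα hβ hαq hβp
  have : Fact p.Prime := ⟨hp⟩
  have : Fact q.Prime := ⟨hq⟩
  have : NeZero (p * q) := ⟨mul_ne_zero hp.ne_zero hq.ne_zero⟩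
  have hqp0 : (q : ZMod p) ≠ 0 := by
    rw [Ne, ZMod.natCast_eq_zero_iff]
    exact fun h => hpq ((Nat.prime_dvd_prime_iff_eq hp hq).mp h)
  have hpq0 : (p : ZMod q) ≠ 0 := by
    rw [Ne, ZMod.natCast_eq_zero_iff]
    exact fun h => hpq ((Nat.prime_dvd_prime_iff_eq hq hp).mp h).symm
  have h2p := hp.two_le
  have h2q := hq.two_le
  set χ : MulChar (ZMod ℓ) ℂ := α ^ (q ^ (p - 2)) * β ^ (p ^ (q - 2)) with hχ
  have hχq : χ ^ q = α := by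
    rw [hχ, mul_pow, ← pow_mul, ← pow_mul, mul_comm (p ^ (q - 2)) q, pow_mul β q, ← hβ,
      pow_orderOf_eq_one, hβ, one_pow, mul_one]
    conv_rhs => rw [← pow_one α]
    refine pow_congr hα ?_
    rw [← pow_succ, show p - 2 + 1 = p - 1 by omega]
    push_cast
    exact ZMod.pow_card_sub_one_eq_one hqp0
  have hχp : χ ^ p = β := by
    rw [hχ, mul_pow, ← pow_mul, ← pow_mul, mul_comm (q ^ (p - 2)) p, pow_mul α p, ← hα,
      pow_orderOf_eq_one, hα, one_pow, one_mul]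
    conv_rhs => rw [← pow_one β]
    refine pow_congr hβ ?_
    rw [← pow_succ, show q - 2 + 1 = q - 1 by omega]
    push_cast
    exact ZMod.pow_card_sub_one_eq_one hpq0
  have hα1 : α ≠ 1 := by
    rintro rfl
    rw [orderOf_one] at hα
    omega
  have hβ1 : β ≠ 1 := by
    rintro rfl
    rw [orderOf_one] at hβ
    omega
  have hord : orderOf χ = p * q := by
    refine orderOf_eq_of_pow_and_pow_div_prime (Nat.mul_pos hp.pos hq.pos) ?_ ?_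
    · rw [pow_mul, hχp, ← hβ, pow_orderOf_eq_one]
    · intro r hr hrd
      rcases (Nat.Prime.dvd_mul hr).mp hrd with h | h
      · rw [(Nat.prime_dvd_prime_iff_eq hr hp).mp h, Nat.mul_div_cancel_left q hp.pos, hχq]
        exact hα1
      · rw [(Nat.prime_dvd_prime_iff_eq hr hq).mp h, Nat.mul_div_cancel p hq.pos, hχp]
        exact hβ1
  have hodd : Odd (p * q) := (hp.odd_of_ne_two hp2).mul (hq.odd_of_ne_two hq2)
  have hD : OddDist (cD (m := p * q) χ ψ) := by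
    refine h1 ℓ (p * q) hodd χ ψ hψ hord ?_
    intro r hr hrd
    rcases (Nat.Prime.dvd_mul hr).mp hrd with h | h
    · rw [(Nat.prime_dvd_prime_iff_eq hr hp).mp h, hχp, hβp]
    · rw [(Nat.prime_dvd_prime_iff_eq hr hq).mp h, hχq, hαq]
  have hV := h2 ℓ (p * q) p q hodd hp hq hpq (dvd_mul_right p q) (dvd_mul_left q p) χ ψ hψ hord
  rw [Nat.mul_div_cancel_left q hp.pos, Nat.mul_div_cancel p hq.pos, hχq, hχp] at hV
  have hT := two_XX hD (dvd_mul_right p q) (dvd_mul_left q p) hp2 hq2 (gn_spec p) (gn_spec q)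
    (lg_spec hqp0) (lg_spec hpq0)
  change (2 : ℤ) • Xc (p * q) p q (cD (m := p * q) χ ψ) = 0 at hT
  have hne := ev_ne hψ hp2 hq2 hpq hα hβ
  have hsq : ev p q ψ α β * ev p q ψ α β = 1 := by
    rw [hV, two_zsmul, ← toU_mul hne hne, ← toU_one] at hT
    exact (toU_inj (mul_ne_zero hne hne) one_ne_zero).mp hT
  refine ⟨by rw [pow_two, hsq], ?_⟩
  rw [ev_swap hψ hp2 hq2 hpq hα hβ]
  exact inv_eq_of_mul_eq_one_right hsq

end Pool.Agent.Q213.RS
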