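import Pool.Agent.H180.RS.Stmts2
import Pool.Agent.H916K.MainTwo

/-!
# Sums of exotic classes which are not closed are not fixed
-/

set_option autoImplicit false

namespace Pool.Agent.Q213.RS

open Finset NumberField Pool.Agent.H180.RS Pool.Agent.H916R2 Pool.Agent.H916K Pool.Agent.Q59.FS
  Pool.Agent.Q59.RL

section Words

variable {ι : Type} [Fintype ι] [DecidableEq ι] {G H : Type*} [AddCommGroup G] [AddCommGroup H]

omit [DecidableEq ι] in
lemma lc_hom (f : G →+ H) (u : ι → G) (x : ι → ℤ) : f (lc u x) = lc (fun i => f (u i)) x := by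
  rw [lc_apply, lc_apply, map_sum]
  exact sum_congr rfl fun i _ => map_zsmul f _ _

omit [Fintype ι] [DecidableEq ι] in
lemma df_append (c : ι → G) {k l : ℕ} (p : (Fin k → ι) × (Fin k → ι))
    (q : (Fin l → ι) × (Fin l → ι)) :
    df c (Fin.append p.1 q.1, Fin.append p.2 q.2) = df c p + df c q := by
  unfold df
  dsimp only
  rw [Fin.sum_univ_add, Fin.sum_univ_add]
  simp only [Fin.append_left, Fin.append_right]
  abel

omit [Fintype ι] in
lemma exists_word_aux (x : ι → ℤ) (hx : x ∈ AddSubgroup.closure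
    {y : ι → ℤ | ∃ i j, y = Pi.single i 1 - Pi.single j 1}) :
    ∃ (k : ℕ) (p : (Fin k → ι) × (Fin k → ι)), df (fun i => (Pi.single i 1 : ι → ℤ)) p = x := by
  induction hx using AddSubgroup.closure_induction with
  | mem y hy =>
    obtain ⟨i, j, rfl⟩ := hy
    refine ⟨1, (fun _ => i, fun _ => j), ?_⟩
    unfold df
    simp
  | zero =>
    refine ⟨0, (Fin.elim0, Fin.elim0), ?_⟩
    unfold df
    simp
  | add y z _ _ hy hz =>
    obtain ⟨k, p, rfl⟩ := hy
    obtain ⟨l, q, rfl⟩ := hz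
    exact ⟨k + l, _, df_append _ p q⟩
  | neg y _ hy =>
    obtain ⟨k, p, rfl⟩ := hy
    refine ⟨k, (p.2, p.1), ?_⟩
    unfold df
    abel

lemma exists_word [Nonempty ι] (x : ι → ℤ) (hx : ∑ i, x i = 0) :
    ∃ (k : ℕ) (p : (Fin k → ι) × (Fin k → ι)), df (fun i => (Pi.single i 1 : ι → ℤ)) p = x := by
  apply exists_word_aux
  obtain ⟨i0⟩ := ‹Nonempty ι›
  have h1 : x = ∑ i, x i • ((Pi.single i 1 : ι → ℤ) - Pi.single i0 1) := by
    have h2 : ∑ i, x i • ((Pi.single i 1 : ι → ℤ) - Pi.single i0 1) =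
        ∑ i, x i • (Pi.single i 1 : ι → ℤ) - (∑ i, x i) • (Pi.single i0 1 : ι → ℤ) := by
      rw [sum_smul, ← sum_sub_distrib]
      exact sum_congr rfl fun i _ => smul_sub _ _ _
    rw [h2, hx, zero_smul, sub_zero]
    funext b
    rw [Finset.sum_apply]
    simp [Pi.single_apply]
  rw [h1]
  refine AddSubgroup.sum_mem _ fun i _ => AddSubgroup.zsmul_mem _ ?_ _
  exact AddSubgroup.subset_closure ⟨i, i0, rfl⟩

end Words

section Un

variable {m : ℕ} {G : Type*} [AddCommGroup G] {ι : Type}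

lemma map_sum_ms (c : ZMod m → G) {k : ℕ} (s : Fin k → Multiset (ZMod m)) :
    ((∑ i, s i).map c).sum = ∑ i, ((s i).map c).sum :=
  map_sum ((Multiset.sumAddMonoidHom (M := G)).comp (Multiset.mapAddMonoidHom c)) s univ

lemma un_map_sum (c : ZMod m → G) (hneg : ∀ a, c (-a) = - c a) (L : ι → Multiset (ZMod m))
    {k : ℕ} (p : (Fin k → ι) × (Fin k → ι)) :
    ((un L p).map c).sum = df (fun i => ((L i).map c).sum) p := by
  unfold un df
  rw [Multiset.map_add, Multiset.sum_add, map_sum_ms, Multiset.map_map]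
  have h1 : (c ∘ Neg.neg) = fun a => - c a := by
    funext a
    exact hneg a
  have h2 : ∀ s : Multiset (ZMod m), (s.map fun a => - c a).sum = - (s.map c).sum := by
    intro s
    induction s using Multiset.induction_on with
    | empty => simp
    | cons a s ih => rw [Multiset.map_cons, Multiset.sum_cons, Multiset.map_cons,
        Multiset.sum_cons, ih]; abel
  rw [h1, h2, map_sum_ms, ← sub_eq_add_neg]

end Un

section Par

variable {m : ℕ} [NeZero m] {r e M : ℕ}

lemma par_ne (P : ℕ) {a : ZMod m} (ha : a ≠ 0) :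
    par m P a = if (P : ZMod m) * a = 0 then 1 else 0 := by
  unfold par
  rw [if_neg ha, add_zero]

lemma par_one (hr : r.Prime) (he : 0 < e) {q : ℕ} (hq : q.Prime) (hqm : q ∣ m) {u : ZMod q}
    (hu : u ≠ 0) : par m (r ^ e) (iota (m / q) u) = if q = r then 1 else 0 := by
  have : Fact q.Prime := ⟨hq⟩
  have hk : m / q * q = m := Nat.div_mul_cancel hqm
  have h0 : (iota (m / q) u : ZMod m) ≠ 0 := fun h => hu (iota_eq_zero hk h)
  rw [par_ne _ h0]
  refine if_congr ?_ rfl rfl
  rw [← iota_natMul hk]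
  constructor
  · intro h
    have h1 := iota_eq_zero hk h
    have h2 : ((r ^ e : ℕ) : ZMod q) = 0 := (mul_eq_zero.mp h1).resolve_right hu
    rw [ZMod.natCast_eq_zero_iff] at h2
    exact (Nat.prime_dvd_prime_iff_eq hq hr).mp (hq.dvd_of_dvd_pow h2)
  · rintro rfl
    have h2 : ((q ^ e : ℕ) : ZMod q) = 0 := by
      rw [ZMod.natCast_eq_zero_iff]
      exact dvd_pow_self q he.ne'
    rw [h2, zero_mul, iota_zero]

lemma mix_dvd {p q : ℕ} (hp : p.Prime) (hq : q.Prime) (hpq : p ≠ q) (hpm : p ∣ m) (hqm : q ∣ m)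
    {u : ZMod q} {v : ZMod p} (hv : v ≠ 0) {n : ℕ}
    (h : (n : ZMod m) * (iota (m / q) u - iota (m / p) v) = 0) : p ∣ n := by
  have : Fact q.Prime := ⟨hq⟩
  have : Fact p.Prime := ⟨hp⟩
  have hkq : m / q * q = m := Nat.div_mul_cancel hqm
  have hkp : m / p * p = m := Nat.div_mul_cancel hpm
  have h1 : (q : ZMod m) * iota (m / q) u = 0 := by
    rw [← iota_natMul hkq, ZMod.natCast_self, zero_mul, iota_zero]
  have h2 : ((n * q : ℕ) : ZMod m) * iota (m / p) v = 0 := by
    push_cast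
    linear_combination (n : ZMod m) * h1 - (q : ZMod m) * h
  rw [← iota_natMul hkp] at h2
  have h3 := iota_eq_zero hkp h2
  have h4 : ((n * q : ℕ) : ZMod p) = 0 := (mul_eq_zero.mp h3).resolve_right hv
  rw [ZMod.natCast_eq_zero_iff] at h4
  rcases (Nat.Prime.dvd_mul hp).mp h4 with h5 | h5
  · exact h5
  · exact absurd ((Nat.prime_dvd_prime_iff_eq hp hq).mp h5) hpq

lemma par_mix (hr : r.Prime) {p q : ℕ} (hp : p.Prime) (hq : q.Prime) (hpq : p ≠ q) (hpm : p ∣ m)
    (hqm : q ∣ m) {u : ZMod q} {v : ZMod p} (hu : u ≠ 0) (hv : v ≠ 0) :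
    par m (r ^ e) (iota (m / q) u - iota (m / p) v) = 0 := by
  have h0 : (iota (m / q) u - iota (m / p) v : ZMod m) ≠ 0 := by
    intro h
    have h1 : p ∣ 1 := mix_dvd hp hq hpq hpm hqm (u := u) hv (by rw [h, mul_zero])
    exact hp.one_lt.ne' (Nat.dvd_one.mp h1)
  rw [par_ne _ h0, if_neg]
  intro h
  have h1 : p ∣ r ^ e := mix_dvd hp hq hpq hpm hqm hv h
  have h' : ((r ^ e : ℕ) : ZMod m) * (iota (m / p) v - iota (m / q) u) = 0 := by
    linear_combination -h
  have h2 : q ∣ r ^ e := mix_dvd hq hp (Ne.symm hpq) hqm hpm hu h'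
  exact hpq (((Nat.prime_dvd_prime_iff_eq hp hr).mp (hp.dvd_of_dvd_pow h1)).trans
    ((Nat.prime_dvd_prime_iff_eq hq hr).mp (hq.dvd_of_dvd_pow h2)).symm)

lemma Xc_par (hr : r.Prime) (he : 0 < e) {p q : ℕ} (hp : p.Prime) (hq : q.Prime) (hpq : p ≠ q)
    (hpm : p ∣ m) (hqm : q ∣ m) : Xc m p q (par m (r ^ e)) =
      (if q = r then ((lg q p : ℕ) : ZMod 2) else 0) +
        (if p = r then ((lg p q : ℕ) : ZMod 2) else 0) := by
  have fp : Fact p.Prime := ⟨hp⟩
  have fq : Fact q.Prime := ⟨hq⟩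
  unfold Xc Pool.Agent.H180.RS.XX
  have h1 : ∑ a ∈ range ((q - 1) / 2), ∑ b ∈ range ((p - 1) / 2),
      par m (r ^ e) (iota (m / q) ((gn q : ZMod q) ^ a) - iota (m / p) ((gn p : ZMod p) ^ b)) =
        0 := sum_eq_zero fun a _ => sum_eq_zero fun b _ =>
    par_mix hr hp hq hpq hpm hqm ((gn_spec q).pow_ne_zero a) ((gn_spec p).pow_ne_zero b)
  have h2 : ∑ i ∈ range (lg q p), par m (r ^ e) (iota (m / q) ((gn q : ZMod q) ^ i)) =
      if q = r then ((lg q p : ℕ) : ZMod 2) else 0 := by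
    rw [sum_congr rfl fun i _ => par_one hr he hq hqm ((gn_spec q).pow_ne_zero i), sum_const,
      card_range, nsmul_eq_mul, mul_ite, mul_one, mul_zero]
  have h3 : ∑ i ∈ range (lg p q), par m (r ^ e) (iota (m / p) ((gn p : ZMod p) ^ i)) =
      if p = r then ((lg p q : ℕ) : ZMod 2) else 0 := by
    rw [sum_congr rfl fun i _ => par_one hr he hp hpm ((gn_spec p).pow_ne_zero i), sum_const,
      card_range, nsmul_eq_mul, mul_ite, mul_one, mul_zero]
  rw [h1, h2, h3, zero_add, sub_eq_add_neg, ZMod.neg_eq_self_mod_two]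

lemma lg_cast {p x : ℕ} (hp : p.Prime) (hp2 : p ≠ 2) (hx : (x : ZMod p) ≠ 0) :
    ((lg p x : ℕ) : ZMod 2) = 1 ↔ ¬ IsSquare (x : ZMod p) := by
  have fp : Fact p.Prime := ⟨hp⟩
  rw [← even_lg hp2 hx, Nat.not_even_iff_odd]
  exact ZMod.natCast_eq_one_iff_odd

lemma countP_conv' {R : Type*} {P : ℕ} (hP : 0 < P) (hm : P * M = m)
    (s : Multiset (ZMod m × R)) :
    (s.countP fun z => M ∣ z.1.val) =
      ((s.map Prod.fst).countP fun z => ((P : ℕ) : ZMod m) * z = 0) := by
  rw [Multiset.countP_map, ← Multiset.countP_eq_card_filter]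
  apply Multiset.countP_congr rfl
  intro z _
  have h1 : ((P : ℕ) : ZMod m) * z.1 = ((P * z.1.val : ℕ) : ZMod m) := by
    push_cast; rw [ZMod.natCast_zmod_val]
  rw [h1, ZMod.natCast_eq_zero_iff]
  have : P * M ∣ P * z.1.val ↔ M ∣ z.1.val := Nat.mul_dvd_mul_iff_left hP
  rw [hm] at this
  exact propext this.symm

end Par

/-- **MC1.** -/
theorem mc1 (h : PropPar) : PropMC1 := by
  classical
  intro N hN K _ _ _ σ m hm hodd hmN ι _ _ _ L hL hsum E hE hncl x hx hx0 heq
  have hm0 : m ≠ 0 := NeZero.ne m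
  -- a prime where the closure fails
  unfold Closed at hncl
  push Not at hncl
  obtain ⟨r, hrm, hcard⟩ := hncl
  have hr := Nat.prime_of_mem_primeFactors hrm
  have hrd := Nat.dvd_of_mem_primeFactors hrm
  have hno2 : ∀ p, p ∣ m → p ≠ 2 := by
    rintro p hp rfl
    exact (Nat.not_even_iff_odd.mpr hodd) (even_iff_two_dvd.mpr hp)
  have hr2 := hno2 r hrd
  obtain ⟨e, M, hrM, hmM⟩ := Nat.exists_eq_pow_mul_and_not_dvd hm0 r hr.one_lt.ne'
  have hcop : r.Coprime M := (Nat.Prime.coprime_iff_not_dvd hr).mpr hrM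
  have he : 0 < e := by
    rcases Nat.eq_zero_or_pos e with h0 | h0
    · rw [h0, pow_zero, one_mul] at hmM
      exact absurd (hmM ▸ hrd) hrM
    · exact h0
  have hM1 : M ≠ 1 := by
    rintro rfl
    have hempty : E = ∅ := by
      rw [eq_empty_iff_forall_notMem]
      intro z hz
      have hz' := hE hz
      unfold prs at hz'
      rw [mem_filter, mem_product, hmM, mul_one, Nat.primeFactors_prime_pow he.ne' hr,
        mem_singleton, mem_singleton] at hz'
      omega
    rw [hempty] at hcard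
    simp at hcard
  have hMpos : 0 < M := Nat.pos_of_ne_zero (by
    rintro rfl
    exact hm0 (by rw [hmM, mul_zero]))
  have hM2 : M ≠ 2 := by
    intro h2
    exact hno2 2 (by rw [hmM, h2]; exact dvd_mul_left 2 _) rfl
  have hM3 : 3 ≤ M := by omega
  set π : ZMod m → ZMod 2 := par m (r ^ e) with hπ
  have hod : OddDist π := par_oddDist (M := M) hr hr2 hcop hmM.symm
  -- words
  obtain ⟨k, p, hp⟩ := exists_word x hx0
  have hlc : ∀ {G : Type} [AddCommGroup G] (u : ι → G), lc u x = df u p := by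
    intro G _ u
    rw [← hp, lc_df]
  set L' : ι → Multiset (ZMod m) := fun i => (L i).map Prod.fst with hL'
  have h0 : ∀ i, (0 : ZMod m) ∉ L' i := by
    intro i h
    obtain ⟨z, hz, hz0⟩ := Multiset.mem_map.mp h
    exact (hL i z hz).1 hz0
  -- the second component: the number of the entries is even
  have hev : Even (Multiset.card (uni L p)) := by
    have h1 := congrArg Prod.snd heq
    have h2 := lc_hom (AddMonoidHom.snd (UD m) (ZMod 2)) (fun i => clU ((L i).map Prod.fst)) x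
    change (lc (fun i => clU ((L i).map Prod.fst)) x).2 = _ at h2
    rw [h2, hlc] at h1
    have h3 : (fun i => (AddMonoidHom.snd (UD m) (ZMod 2)) (clU ((L i).map Prod.fst))) =
        fun i => ((L' i).map (fun _ => (1 : ZMod 2))).sum := by
      funext i
      rw [Multiset.map_const', Multiset.sum_replicate, nsmul_eq_mul, mul_one]
      rfl
    rw [h3, ← un_map_sum (fun _ => (1 : ZMod 2)) (fun _ => by decide) L' p] at h1
    rw [Multiset.map_const', Multiset.sum_replicate, nsmul_eq_mul, mul_one, hL', ← uni_fst,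
      Multiset.card_map] at h1
    exact ZMod.natCast_eq_zero_iff_even.mp h1
  -- the line is fixed
  have hfix : Fixed m σ (uni L p) := by
    rw [fixed_uni L hL hsum p hev]
    convert hx
    convert hp
  have hne : ∀ z ∈ uni L p, z.2 ≠ 0 := by
    intro z hz
    unfold uni at hz
    rcases Multiset.mem_add.mp hz with h1 | h1
    · obtain ⟨i, _, hi⟩ := Multiset.mem_sum.mp h1
      exact (hL _ z hi).2
    · obtain ⟨y, hy, rfl⟩ := Multiset.mem_map.mp h1
      obtain ⟨i, _, hi⟩ := Multiset.mem_sum.mp hy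
      exact (hL _ y hi).2
  have hpar := h N K σ m M r e hodd hmN (by rw [hmM, mul_comm]) he hM3 hr hcop.symm (uni L p) hne
    hfix
  rw [countP_conv' (pow_pos hr.pos e) hmM.symm] at hpar
  have hz0 : (0 : ZMod m) ∉ (uni L p).map Prod.fst := by
    rw [uni_fst]
    exact un_zero h0 p
  have hzero := sum_par (m := m) (P := r ^ e) hz0
  rw [ZMod.natCast_eq_zero_iff_even.mpr hpar, uni_fst, un_map_sum _ hod.neg] at hzero
  -- the first component
  have h1 := congrArg (fun w : UD m × ZMod 2 => lft π hod w.1) heq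
  dsimp only at h1
  have h2 := lc_hom ((lft π hod).comp (AddMonoidHom.fst (UD m) (ZMod 2)))
    (fun i => clU ((L i).map Prod.fst)) x
  change lft π hod (lc (fun i => clU ((L i).map Prod.fst)) x).1 = _ at h2
  rw [h2, hlc] at h1
  have h3 : (fun i => ((lft π hod).comp (AddMonoidHom.fst (UD m) (ZMod 2)))
      (clU ((L i).map Prod.fst))) = fun i => ((L' i).map π).sum := by
    funext i
    change lft π hod (((L i).map Prod.fst).map (cU m)).sum = _
    rw [map_multiset_sum, Multiset.map_map]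
    congr 1
    refine Multiset.map_congr rfl fun a _ => ?_
    exact lft_cU π hod a
  rw [h3, hzero, map_sum] at h1
  have h4 : ∀ z ∈ E, lft π hod (Xc m z.1 z.2 (cU m)) =
      if (z.1 = r ∧ ¬ IsSquare ((z.2 : ℕ) : ZMod r)) ∨
        (z.2 = r ∧ ¬ IsSquare ((z.1 : ℕ) : ZMod r)) then 1 else 0 := by
    intro z hz
    have hz' := hE hz
    unfold prs at hz'
    rw [mem_filter, mem_product] at hz'
    obtain ⟨⟨hz1, hz2⟩, hlt⟩ := hz'
    obtain ⟨p1, q1⟩ := z
    dsimp only at hz1 hz2 hlt ⊢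
    have hp1 := Nat.prime_of_mem_primeFactors hz1
    have hq1 := Nat.prime_of_mem_primeFactors hz2
    have hp1m := Nat.dvd_of_mem_primeFactors hz1
    have hq1m := Nat.dvd_of_mem_primeFactors hz2
    have f1 : Fact p1.Prime := ⟨hp1⟩
    have f2 : Fact q1.Prime := ⟨hq1⟩
    have hX : lft π hod (Xc m p1 q1 (cU m)) = Xc m p1 q1 π := by
      unfold Xc
      rw [XX_map]
      congr 1
      funext a
      exact lft_cU π hod a
    rw [hX, hπ, Xc_par hr he hp1 hq1 hlt.ne hp1m hq1m]
    have c1 : (q1 : ZMod p1) ≠ 0 := by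
      rw [Ne, ZMod.natCast_eq_zero_iff]
      exact fun h => hlt.ne ((Nat.prime_dvd_prime_iff_eq hp1 hq1).mp h)
    have c2 : (p1 : ZMod q1) ≠ 0 := by
      rw [Ne, ZMod.natCast_eq_zero_iff]
      exact fun h => hlt.ne' ((Nat.prime_dvd_prime_iff_eq hq1 hp1).mp h)
    by_cases a1 : p1 = r
    · subst a1
      have a2 : ¬ q1 = p1 := hlt.ne'
      rw [if_neg a2, if_pos rfl, zero_add]
      by_cases hs : IsSquare ((q1 : ℕ) : ZMod p1)
      · rw [if_neg (by rintro (⟨_, h5⟩ | ⟨h5, _⟩) <;> contradiction)]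
        exact ZMod.natCast_eq_zero_iff_even.mpr ((even_lg hr2 c1).mpr hs)
      · rw [if_pos (Or.inl ⟨rfl, hs⟩)]
        exact (lg_cast hp1 hr2 c1).mpr hs
    · rw [if_neg a1, add_zero]
      by_cases a2 : q1 = r
      · subst a2
        rw [if_pos rfl]
        by_cases hs : IsSquare ((p1 : ℕ) : ZMod q1)
        · rw [if_neg (by rintro (⟨h5, _⟩ | ⟨_, h5⟩) <;> contradiction)]
          exact ZMod.natCast_eq_zero_iff_even.mpr ((even_lg hr2 c2).mpr hs)
        · rw [if_pos (Or.inr ⟨rfl, hs⟩)]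
          exact (lg_cast hq1 hr2 c2).mpr hs
      · rw [if_neg a2, if_neg]
        simp [a1, a2]
  rw [sum_congr rfl h4, sum_boole] at h1
  apply hcard
  rw [← ZMod.natCast_eq_zero_iff_even, ← h1]

end Pool.Agent.Q213.RS
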